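import Pool.Agent.H22.LG.Stm
set_option autoImplicit false

namespace H38.LG

open Pool.Agent.Y382.PAR H22.CM H22.LG Matrix

theorem Q_solvable (hS : S_SLB) (F : Type) [Field F] [Fintype F] [DecidableEq F] (n : ℕ) (G : Type)
    [Group G] [Finite G] (D : Dat n F G) : Group.IsSolvable (Q D n) := by
  haveI h0 : Group.IsSolvable (P n n F) := hS F n
  haveI h1 : Group.IsSolvable ((P n n F).subgroupOf D.E) := by
    let f : ((P n n F).subgroupOf D.E) →* P n n F :=
      { toFun := fun x => ⟨x.1.1, Subgroup.mem_subgroupOf.mp x.2⟩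
        map_one' := rfl
        map_mul' := fun _ _ => rfl }
    have hf : Function.Injective f := by
      intro x y hxy
      apply Subtype.ext
      apply Subtype.ext
      exact congrArg (fun z : P n n F => z.1) hxy
    exact Group.isSolvable_of_isSolvable_injective hf
  exact Group.isSolvable_of_surjective (D.π.subgroupMap_surjective ((P n n F).subgroupOf D.E))

theorem Q_sylow (hI : S_INV) (hK : S_KLE) (F : Type) [Field F] [Fintype F] [DecidableEq F] (n : ℕ) (G : Type)
    [Group G] [Finite G] (D : Dat n F G) (hn : 3 ≤ n ∨ (n = 2 ∧ CharP F 2 ∧ 3 ≤ Fintype.card F)) :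
    ∀ P : Sylow 2 (Q D n), (P : Subgroup (Q D n)) = ⊥ ∨ ¬ IsCyclic (P : Subgroup (Q D n)) := by
  obtain ⟨a, b, ha, hb, hda, hdb, haa, hbb, hab, hsa, hsb, hsab⟩ := hI F n hn
  let a' : D.E := ⟨a, D.sl a hda⟩
  let b' : D.E := ⟨b, D.sl b hdb⟩
  have hma : D.π a' ∈ Q D n := Subgroup.mem_map_of_mem _ (Subgroup.mem_subgroupOf.mpr ha)
  have hmb : D.π b' ∈ Q D n := Subgroup.mem_map_of_mem _ (Subgroup.mem_subgroupOf.mpr hb)
  have haa' : a' * a' = 1 := Subtype.ext haa
  have hbb' : b' * b' = 1 := Subtype.ext hbb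
  have hab' : a' * b' = b' * a' := Subtype.ext hab
  apply hK (Q D n) ⟨D.π a', hma⟩ ⟨D.π b', hmb⟩
  · intro h
    exact hsa (D.ker a' (congrArg Subtype.val h))
  · intro h
    exact hsb (D.ker b' (congrArg Subtype.val h))
  · intro h
    have h1 : D.π a' = D.π b' := congrArg Subtype.val h
    apply hsab
    exact D.ker (a'⁻¹ * b') (by rw [map_mul, map_inv, h1, inv_mul_cancel])
  · apply Subtype.ext
    show D.π a' * D.π a' = 1
    rw [← map_mul, haa', map_one]
  · apply Subtype.ext
    show D.π b' * D.π b' = 1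
    rw [← map_mul, hbb', map_one]
  · apply Subtype.ext
    show D.π a' * D.π b' = D.π b' * D.π a'
    rw [← map_mul, hab', map_mul]

theorem t_LIN (hS : S_SLB) (hK : S_KLE) (hI : S_INV) (hR : S_ROW) (hU : S_UPB) (hC : S_CHN)
    (hSOL : S_SOL) : S_LIN := by
  obtain ⟨N0, hN0⟩ := hSOL
  refine ⟨N0 ^ (N0 * N0) + 17, ?_⟩
  intro F _ _ _ n G _ _ D hn hn3 hN
  have hq2 : 2 ≤ Fintype.card F := Fintype.one_lt_card
  have hG := hU F n G D
  have hcase : 3 ≤ n ∨ (n = 2 ∧ CharP F 2 ∧ 3 ≤ Fintype.card F) := by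
    by_cases h3 : 3 ≤ n
    · exact Or.inl h3
    · right
      have h2 : n = 2 := by omega
      refine ⟨h2, hn3.resolve_left h3, ?_⟩
      by_contra hq
      have hq' : Fintype.card F = 2 := by omega
      rw [hq', h2] at hG
      have : (2 : ℕ) ^ (2 * 2) = 16 := by norm_num
      omega
  by_cases hbig : N0 ≤ Nat.card (Q D n)
  · haveI := Q_solvable hS F n G D
    exact hC F n G D (by omega) (hN0 (Q D n) hbig (Q_sylow hI hK F n G D hcase))
  · exfalso
    have h1 := hR F n G D (by omega)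
    have h2 : Fintype.card F ^ (n - 1) < N0 := by omega
    have h3 : Fintype.card F ≤ Fintype.card F ^ (n - 1) := by
      calc Fintype.card F = Fintype.card F ^ 1 := (pow_one _).symm
        _ ≤ Fintype.card F ^ (n - 1) := Nat.pow_le_pow_right (by omega) (by omega)
    have h4 : n - 1 < Fintype.card F ^ (n - 1) := Nat.lt_pow_self (by omega)
    have h5 : n ≤ N0 := by omega
    have h6 : Fintype.card F ≤ N0 := by omega
    have h7 : Fintype.card F ^ (n * n) ≤ N0 ^ (N0 * N0) :=
      calc Fintype.card F ^ (n * n) ≤ N0 ^ (n * n) := Nat.pow_le_pow_left h6 _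
        _ ≤ N0 ^ (N0 * N0) := Nat.pow_le_pow_right (by omega) (Nat.mul_le_mul h5 h5)
    omega

end H38.LG
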