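import Pool.Agent.H22.LG.Stm
set_option autoImplicit false

namespace H38.LG

open Pool.Agent.Y382.PAR H22.CM H22.LG Matrix

/-- the matrix `1 + e_0 c` -/
def TM {F : Type} [Field F] {m : ℕ} (c : Fin m → F) : Matrix (Fin (m + 1)) (Fin (m + 1)) F :=
  fun i j => if i = j then 1 else if i = 0 then (Fin.cons 0 c : Fin (m + 1) → F) j else 0

theorem TM_det {F : Type} [Field F] {m : ℕ} (c : Fin m → F) : (TM c).det = 1 := by
  have h : (TM c).BlockTriangular id := by
    intro i j hij
    have h1 : j < i := hij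
    have h2 : i ≠ j := ne_of_gt h1
    have h3 : i ≠ 0 := by
      intro h0
      rw [h0] at h1
      exact absurd h1 (Fin.not_lt_zero j)
    simp [TM, h2, h3]
  rw [Matrix.det_of_upperTriangular h]
  simp [TM]

theorem TM_inj {F : Type} [Field F] {m : ℕ} {c c' : Fin m → F} (h : TM c = TM c') : c = c' := by
  funext k
  have h1 := congrFun (congrFun h 0) k.succ
  have h2 : (0 : Fin (m + 1)) ≠ k.succ := (Fin.succ_ne_zero k).symm
  simpa [TM, h2] using h1

/-- the invertible matrix -/
noncomputable def tm {F : Type} [Field F] {m : ℕ} (c : Fin m → F) : GL (Fin (m + 1)) F :=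
  Matrix.GeneralLinearGroup.mkOfDetNeZero (TM c) (by rw [TM_det]; exact one_ne_zero)

theorem tm_val {F : Type} [Field F] {m : ℕ} (c : Fin m → F) : (tm c).1 = TM c := rfl

theorem tm_mem {F : Type} [Field F] [Fintype F] [DecidableEq F] {m k : ℕ} (c : Fin m → F) :
    tm c ∈ P (m + 1) k F := by
  rw [mem_P]
  intro i j _ hij
  have h2 : i ≠ j := ne_of_gt hij
  have h3 : i ≠ 0 := by
    intro h0
    rw [h0] at hij
    exact absurd hij (Fin.not_lt_zero j)
  rw [tm_val]
  simp [TM, h2, h3]

theorem t_ROW : S_ROW := by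
  intro F _ _ _ n G _ _ D hn
  obtain ⟨m, rfl⟩ : ∃ m, n = m + 1 := ⟨n - 1, by omega⟩
  have hE : ∀ c : Fin m → F, tm c ∈ D.E := fun c => D.sl _ (by rw [tm_val]; exact TM_det c)
  let f : (Fin m → F) → Q D (m + 1) := fun c =>
    ⟨D.π ⟨tm c, hE c⟩, Subgroup.mem_map_of_mem _ (Subgroup.mem_subgroupOf.mpr (tm_mem c))⟩
  have hf : Function.Injective f := by
    intro c c' hcc
    have h1 : D.π ⟨tm c, hE c⟩ = D.π ⟨tm c', hE c'⟩ := congrArg Subtype.val hcc
    have h2 : D.π ((⟨tm c, hE c⟩ : D.E)⁻¹ * ⟨tm c', hE c'⟩) = 1 := by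
      rw [map_mul, map_inv, h1, inv_mul_cancel]
    obtain ⟨s, hs⟩ := D.ker _ h2
    have h3 : tm c' = tm c * ((tm c)⁻¹ * tm c') := by group
    have h4 : ∀ i j, TM c' i j = TM c i j * s := by
      intro i j
      have h5 : TM c' i j = ((tm c).1 * ((tm c)⁻¹ * tm c').1) i j := by
        have := congrArg (fun g : GL (Fin (m + 1)) F => g.1 i j) h3
        exact this
      rw [h5, Matrix.mul_apply, Finset.sum_eq_single j]
      · have h6 := hs j j
        rw [if_pos rfl] at h6
        have h7 : ((tm c)⁻¹ * tm c').1 j j = s := h6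
        rw [h7, tm_val]
      · intro l _ hl
        have h6 := hs l j
        rw [if_neg hl] at h6
        have h7 : ((tm c)⁻¹ * tm c').1 l j = 0 := h6
        rw [h7, mul_zero]
      · intro h
        exact absurd (Finset.mem_univ j) h
    have h8 : s = 1 := by
      have := h4 0 0
      simp only [TM, if_pos] at this
      rw [one_mul] at this
      exact this.symm
    apply TM_inj
    funext i j
    rw [h4 i j, h8, mul_one]
  have h9 := Nat.card_le_card_of_injective f hf
  rw [Nat.card_fun, Nat.card_eq_fintype_card, Nat.card_eq_fintype_card, Fintype.card_fin] at h9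
  exact h9

end H38.LG
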